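import Mathlib
import Pool.Agent.Q191.MV.Gap
import Pool.Agent.H225R3.Marg8

/-!
# Margulis' injectivity radius conjecture over extensions of fields with Frobenius automorphisms

Let `k` be a number field which contains a field `F` with the following property: `q` is a power of a
prime number `p`, and `F` has an automorphism `τ` such that `x ^ q ≡ τ x` modulo `P` for all integers
`x` of `F` and all `P` in a set `T` of prime ideals above `p`, and the product of the norms of the
members of `T` is at least `p ^ ([F : ℚ] / B)`. For instance `B = 1`, `q = p`, `T` the set of all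
prime ideals above `p`, if `F` is abelian over `ℚ` and `p` is unramified; or `τ = 1` if `F` is any
field in which `p` splits completely, or has bounded residue degrees. Nothing is assumed on the
extension `k / F` but the inequality

`4 q ^ 3 exp (√(3 B log q log (7 B n [k : F]))) ≤ A [F : ℚ]`,

which allows `[k : F]` to be as large as `exp (c (log [F : ℚ]) ^ 2)`. All the torsion-free arithmetic
groups over such fields, of any degree, realized by integral matrices of a fixed size `n`, with at
most `s` noncompact embeddings, form a uniformly discrete family, with the explicit identity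
neighbourhood of the `u` such that `s n A log |l| < 1` for all the eigenvalues `l` of `ρ u`.

`Pool.Agent.H225R3.MargDefs` contains the definitions of `IsEig` (eigenvalue) and of
`Realization ρ Γ k n S`: a homomorphism `r` from `Γ` to the `n` by `n` matrices over the ring of
integers of `k`, bounded under all embeddings outside `S`, such that for `σ` in `S` the eigenvalues
of `σ (r γ)` are eigenvalues of `ρ γ`, and such that only `1` is mapped to a unipotent matrix.

Method. Let `x` be an eigenvalue of `r γ` which is not a root of unity. One may assume that all powers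
of `x` generate the same field `K` over `F`. The conjugates of `x ^ (q ^ j)`, `j = 0, …, J`, over the
embeddings `v τ ^ (J - j)` of `F` are inserted into a Vandermonde determinant, for each embedding `v`
of `F`. By Witt coordinates, the coefficients of the minimal polynomials over `F` of `x ^ (q ^ b)` and
of `x ^ (q ^ a)`, `a < b`, are congruent modulo `P ^ (a + 1)` up to `τ ^ (b - a)`, for all `P` in `T`.
So the norm of the product of the determinants is large. Hadamard's inequality bounds it from above by
the Mahler measure of `x`. Then `J` is chosen suitably.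
-/

set_option autoImplicit false

open NumberField Module Pool.Agent.H225R3.Marg

namespace Pool.Agent.Results.MP_162bbe_gt.FrobeniusSubfields

/-- The number field `F` has an automorphism `τ` which is congruent to the `q`-th power map modulo
many prime ideals: `q` is a power of a prime number `p`, and there is a finite set `T` of prime
ideals above `p` with `x ^ q ≡ τ x` modulo each of them, such that the product of their norms is at
least `p ^ ([F : ℚ] / B)`. -/
def FrobeniusAt (F : Type) [Field F] [NumberField F] (q B : ℕ) : Prop :=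
  ∃ (p l : ℕ) (τ : F ≃+* F) (T : Finset (Ideal (𝓞 F))), p.Prime ∧ 0 < l ∧ q = p ^ l ∧
    (∀ P ∈ T, P.IsPrime ∧ (p : 𝓞 F) ∈ P ∧
      ∀ x : 𝓞 F, x ^ q - RingOfIntegers.mapRingHom (τ : F →+* F) x ∈ P) ∧
    p ^ finrank ℚ F ≤ (∏ P ∈ T, Ideal.absNorm P) ^ B

/-- `4 q ^ 3 exp (√(3 B log q log (7 B D)))` -/
noncomputable def cost (q B D : ℕ) : ℝ :=
  4 * (q : ℝ) ^ 3 * Real.exp (√(3 * B * Real.log q * Real.log (7 * B * D)))

/-- The torsion-free subgroups `Γ` of `G` which have a realization by matrices of size `n`, with at
most `s` noncompact embeddings, over a number field `k` which contains a field `F` with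
`FrobeniusAt F q B` and `cost q B (n [k : F]) ≤ A [F : ℚ]`, for some `q` and `B`. -/
def Family (A : ℝ) (s n : ℕ) {G : Type*} [Group G] {M : ℕ} (ρ : G →* Matrix (Fin M) (Fin M) ℂ) :
    Set (Subgroup G) :=
  {Γ | (∀ γ ∈ Γ, ∀ N : ℕ, 0 < N → γ ^ N = 1 → γ = 1) ∧
    ∃ (k : Type) (_ : Field k) (_ : NumberField k) (S : Finset (k →+* ℂ))
      (_ : Realization ρ Γ k n S) (F : Type) (_ : Field F) (_ : NumberField F) (_ : Algebra F k)
      (q B : ℕ), S.card ≤ s ∧ FrobeniusAt F q B ∧
      cost q B (n * finrank F k) ≤ A * finrank ℚ F}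

/-- The elements `u` of `G` such that `s n A log |l| < 1` for all the eigenvalues `l` of `ρ u`. -/
def Ball (A : ℝ) (s n : ℕ) {G : Type*} [Group G] {M : ℕ} (ρ : G →* Matrix (Fin M) (Fin M) ℂ) :
    Set G :=
  {u | ∀ l : ℂ, IsEig (ρ u) l → s * n * A * Real.log ‖l‖ < 1}

/-- Let `G` be a topological group and `ρ` a continuous finite dimensional complex representation of
`G` (for instance the complexified adjoint representation of a semisimple Lie group), and `A > 0`.
The set `Ball A s n ρ` is an identity neighbourhood, and all its conjugates meet the groups of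
`Family A s n ρ` in the identity only. So the family is uniformly discrete. -/
theorem result {G : Type*} [Group G] [TopologicalSpace G] {M : ℕ}
    (ρ : G →* Matrix (Fin M) (Fin M) ℂ) (hρ : Continuous ρ) (A : ℝ) (hA : 0 < A) (s n : ℕ) :
    Ball A s n ρ ∈ nhds (1 : G) ∧ ∀ Γ ∈ Family A s n ρ, ∀ g : G, ∀ u ∈ Ball A s n ρ,
      g * u * g⁻¹ ∈ Γ → g * u * g⁻¹ = 1 := by
  refine ⟨?_, ?_⟩
  · obtain ⟨ε, hε, h⟩ : ∃ ε : ℝ, 0 < ε ∧ s * n * A * Real.log (1 + ε) < 1 := by
      refine ⟨1 / (s * n * A + 1), by positivity, ?_⟩
      have h0 : 0 ≤ (s * n * A : ℝ) := by positivity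
      have h1 : Real.log (1 + 1 / (s * n * A + 1)) ≤ 1 / (s * n * A + 1) := by
        have := Real.log_le_sub_one_of_pos (show 0 < 1 + 1 / (s * n * A + 1 : ℝ) by positivity)
        linarith
      have h2 := mul_le_mul_of_nonneg_left h1 h0
      refine lt_of_le_of_lt h2 ?_
      rw [mul_one_div, div_lt_one (by positivity)]
      linarith
    refine Filter.mem_of_superset (nhd ρ hρ ε hε) fun u hu l hl => ?_
    have h3 := close_eig (ρ u) ε hε hu l hl
    have h4 : ‖l‖ ≤ 1 + ε := by
      have h5 : ‖l‖ ≤ ‖l - 1‖ + ‖(1 : ℂ)‖ := by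
        have := norm_add_le (l - 1) 1
        rwa [sub_add_cancel] at this
      rw [norm_one] at h5
      linarith
    have h6 : Real.log ‖l‖ ≤ Real.log (1 + ε) := by
      rcases (norm_nonneg l).eq_or_lt with h7 | h7
      · rw [← h7, Real.log_zero]
        exact Real.log_nonneg (by linarith)
      · exact Real.log_le_log h7 h4
    exact lt_of_le_of_lt (mul_le_mul_of_nonneg_left h6 (by positivity)) h
  · rintro Γ ⟨htf, k, _, _, S, R, F, _, _, _, q, B, hS, hF, hcost⟩ g u hu hΓ
    by_contra hne
    have hunit : IsUnit (R.r ⟨g * u * g⁻¹, hΓ⟩) :=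
      (Group.isUnit (⟨g * u * g⁻¹, hΓ⟩ : Γ)).map R.r
    have hnil : ∀ N : ℕ, 0 < N → ¬ IsNilpotent (R.r ⟨g * u * g⁻¹, hΓ⟩ ^ N - 1) := by
      intro N hN h
      rw [← map_pow] at h
      have h1 := R.unipotent _ h
      exact hne (htf _ hΓ N hN (congrArg Subtype.val h1))
    obtain ⟨σ, hσ, l, hl, hl1, hlow⟩ := Pool.Agent.Q191.MV.gap k F n s q B S
      (R.r ⟨g * u * g⁻¹, hΓ⟩) hF hS hunit (fun σ hσ l hl => R.comp' _ σ hσ l hl) hnil
    have h1 : IsEig (ρ (g * u * g⁻¹)) l := R.eig σ hσ ⟨g * u * g⁻¹, hΓ⟩ l hl
    have h2 : (ρ (g * u * g⁻¹)).charpoly = (ρ u).charpoly := by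
      rw [map_mul, map_mul]
      have h4 : ρ g⁻¹ * ρ g = 1 := by rw [← map_mul, inv_mul_cancel, map_one]
      rw [Matrix.charpoly_mul_comm, ← mul_assoc, h4, one_mul]
    rw [IsEig, h2] at h1
    have h3 := hu l h1
    have h5 : 0 < Real.log ‖l‖ := Real.log_pos hl1
    have hf : (0 : ℝ) < finrank ℚ F := by exact_mod_cast (finrank_pos : 0 < finrank ℚ F)
    have h7 : (finrank ℚ F : ℝ) ≤ s * n * (A * finrank ℚ F) * Real.log ‖l‖ :=
      hlow.trans (mul_le_mul_of_nonneg_right (mul_le_mul_of_nonneg_left hcost (by positivity)) h5.le)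
    have h8 : (finrank ℚ F : ℝ) * 1 ≤ finrank ℚ F * (s * n * A * Real.log ‖l‖) := by
      rw [mul_one]
      refine h7.trans (le_of_eq ?_)
      ring
    have h9 : (1 : ℝ) ≤ s * n * A * Real.log ‖l‖ := le_of_mul_le_mul_left h8 hf
    exact absurd h9 (not_le.2 h3)

end Pool.Agent.Results.MP_162bbe_gt.FrobeniusSubfields
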