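import Mathlib
import Pool.Agent.Q226.DF.RelMain
import Pool.Agent.Q226.DF.Rat
import Pool.Agent.H225R3.Marg8

/-!
# Margulis' injectivity radius conjecture over number fields with large relative discriminant

Let `Γ` be a torsion-free group with a realization by integral `n × n` matrices over a number field
`k`, of any degree, with noncompact embeddings `S`. If `γ ≠ 1` in `Γ` is close to a compact element,
i.e. the eigenvalues of `ρ γ` are at most `Λ` in absolute value, `Λ` near `1`, then some subfield `F`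
of `k` with `[k : F] ≤ |S|` has small discriminant relative to each of its subfields `E`:
`|disc F| ≤ |disc E| ^ [F : E] (n! [F : E]) ^ [F : ℚ] Λ ^ (2 |S| n! [F : E])`.
So the groups over the number fields `k` all of whose subfields `F` of index at most `s` have bounded
degree or a subfield `E` such that
`|disc F| ≥ |disc E| ^ [F : E] (n! [F : E]) ^ [F : ℚ] B ^ [F : E]`, `B > 1`, form a uniformly
discrete family. If `s = 1`, only `F = k` is to be considered: the family contains, for every number
field `E` and every `e > 1`, the groups over all but finitely many extensions of degree `e` of `E`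
(those whose relative discriminant has norm at least `(n! e) ^ [k : ℚ] B ^ e`), and the
neighbourhood does not depend on `E` and `e`. The same holds for all `s` and the fields without
proper subfields of index at most `s`, e.g. those of prime degree larger than `s` (with `E = ℚ`).

`Pool.Agent.H225R3.MargDefs` contains the definitions of `IsEig` (eigenvalue) and of
`Realization ρ Γ k n S`: a homomorphism `r` from `Γ` to the `n` by `n` matrices over the ring of
integers of `k`, bounded under all embeddings outside `S`, such that for `σ` in `S` the eigenvalues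
of `σ (r γ)` are eigenvalues of `ρ γ`, and such that only `1` is mapped to a unipotent matrix.

Method. Let `F` be the field generated by the coefficients of the characteristic polynomial of `r γ`
and `L` its splitting field. If an embedding of `F` has a root outside the unit circle, then all its
extensions to `k` are in `S`. The monomials of degree at most `D = [L : E]` in the eigenvalues span
`L` over `E`; a basis consisting of monomials and Hadamard's inequality bound the discriminant of `L`
by `|disc E| ^ D D ^ [L : ℚ] Λ ^ (2 D |S| n!)`, and `|disc F| ^ [L : F] ≤ |disc L|`,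
`[L : F] ≤ n!`. The fields of bounded degree are treated with the lower bound of
`Pool.Agent.Q191.MV`.
-/

set_option autoImplicit false

open NumberField Module Pool.Agent.H225R3.Marg

namespace Pool.Agent.Results.MP_162bbe_gt.LargeDiscriminants

/-- The number field `F` has a subfield `E` such that
`|disc F| ≥ |disc E| ^ [F : E] (n! [F : E]) ^ [F : ℚ] B ^ [F : E]`. -/
def HasLargeRelativeDiscriminant (B : ℝ) (n : ℕ) (F : Type) [Field F] [NumberField F] : Prop :=
  ∃ E : IntermediateField ℚ F,
    |(discr E : ℝ)| ^ finrank E F *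
      (((n.factorial : ℝ) * finrank E F) ^ finrank ℚ F * B ^ finrank E F) ≤ |(discr F : ℝ)|

/-- `|disc F| ≤ |disc E| ^ [F : E] (n! [F : E]) ^ [F : ℚ] x ^ [F : E]` for all the subfields `E` of
the number field `F`. -/
def HasSmallDiscriminants (x : ℝ) (n : ℕ) (F : Type) [Field F] [NumberField F] : Prop :=
  ∀ E : IntermediateField ℚ F,
    |(discr F : ℝ)| ≤ |(discr E : ℝ)| ^ finrank E F *
      (((n.factorial : ℝ) * finrank E F) ^ finrank ℚ F * x ^ finrank E F)

/-- Every subfield `F` of `k` of index at most `s` has degree at most `D₀` or a large relative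
discriminant. -/
def HasLargeDiscriminants (B : ℝ) (s n D₀ : ℕ) (k : Type) [Field k] [NumberField k] : Prop :=
  ∀ F : IntermediateField ℚ k, finrank F k ≤ s →
    finrank ℚ F ≤ D₀ ∨ HasLargeRelativeDiscriminant B n F

/-- There is no element of finite order other than the identity. -/
def TorsionFree {G : Type*} [Group G] (Γ : Subgroup G) : Prop :=
  ∀ γ ∈ Γ, ∀ N : ℕ, 0 < N → γ ^ N = 1 → γ = 1

/-- The torsion-free subgroups `Γ` of `G` which have a realization by matrices of size `n`, with at
most `s` noncompact embeddings, over a number field `k` with large discriminants. -/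
def Family (B : ℝ) (s n D₀ : ℕ) {G : Type*} [Group G] {M : ℕ}
    (ρ : G →* Matrix (Fin M) (Fin M) ℂ) : Set (Subgroup G) :=
  {Γ | TorsionFree Γ ∧ ∃ (k : Type) (_ : Field k) (_ : NumberField k) (S : Finset (k →+* ℂ))
      (_ : Realization ρ Γ k n S), S.card ≤ s ∧ HasLargeDiscriminants B s n D₀ k}

/-- The number field `k` is the only one of its subfields of index at most `s`. -/
def NoSubfields (s : ℕ) (k : Type) [Field k] [NumberField k] : Prop :=
  ∀ F : IntermediateField ℚ k, finrank F k ≤ s → F = ⊤

/-- The torsion-free subgroups `Γ` of `G` which have a realization by matrices of size `n`, with at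
most `s` noncompact embeddings, over a number field `k` with a large relative discriminant which has
no proper subfield of index at most `s`. -/
def PrimitiveFamily (B : ℝ) (s n : ℕ) {G : Type*} [Group G] {M : ℕ}
    (ρ : G →* Matrix (Fin M) (Fin M) ℂ) : Set (Subgroup G) :=
  {Γ | TorsionFree Γ ∧ ∃ (k : Type) (_ : Field k) (_ : NumberField k) (S : Finset (k →+* ℂ))
      (_ : Realization ρ Γ k n S), S.card ≤ s ∧ NoSubfields s k ∧
        HasLargeRelativeDiscriminant B n k}

/-- `32 exp (√(3 log 2 log (7 D)))` -/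
noncomputable def cost (D : ℕ) : ℝ :=
  32 * Real.exp (√(3 * Real.log 2 * Real.log (7 * D)))

/-- The elements `u` of `G` such that `2 s n! log |l| < log B` and
`s n cost (n s D₀) log |l| < 1` for all the eigenvalues `l` of `ρ u`. -/
def Ball (B : ℝ) (s n D₀ : ℕ) {G : Type*} [Group G] {M : ℕ} (ρ : G →* Matrix (Fin M) (Fin M) ℂ) :
    Set G :=
  {u | ∀ l : ℂ, IsEig (ρ u) l → 2 * (s * n.factorial) * Real.log ‖l‖ < Real.log B ∧
    s * n * cost (n * (s * D₀)) * Real.log ‖l‖ < 1}

/-- **Elements with small eigenvalues live over subfields with small discriminant.** -/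
theorem small {G : Type*} [Group G] {M : ℕ} (ρ : G →* Matrix (Fin M) (Fin M) ℂ) {Γ : Subgroup G}
    (htf : TorsionFree Γ) (k : Type) [Field k] [NumberField k] (n : ℕ) (S : Finset (k →+* ℂ))
    (R : Realization ρ Γ k n S) (γ : G) (hγ : γ ∈ Γ) (hne : γ ≠ 1) :
    ∃ (F : IntermediateField ℚ k) (l : ℂ), IsEig (ρ γ) l ∧ 1 < ‖l‖ ∧ finrank F k ≤ S.card ∧
      HasSmallDiscriminants (‖l‖ ^ (2 * (S.card * n.factorial))) n F := by
  classical
  have hunit : IsUnit (R.r ⟨γ, hγ⟩) := (Group.isUnit (⟨γ, hγ⟩ : Γ)).map R.r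
  have hnil : ∀ N : ℕ, 0 < N → ¬ IsNilpotent (R.r ⟨γ, hγ⟩ ^ N - 1) := by
    intro N hN h
    rw [← map_pow] at h
    have h1 := R.unipotent _ h
    exact hne (htf _ hγ N hN (congrArg Subtype.val h1))
  obtain ⟨σ, hσ, l₁, hl₁, hl1, -⟩ := Pool.Agent.Y399.MG.gap_of k n S (R.r ⟨γ, hγ⟩)
    (fun _ => True) (fun _ _ _ _ _ _ _ _ _ _ _ _ _ => trivial) hunit
    (fun σ hσ l hl => R.comp' _ σ hσ l hl) hnil
  -- the largest eigenvalue
  obtain ⟨l, hl, hmax⟩ := Finset.exists_max_image (ρ γ).charpoly.roots.toFinset (fun l => ‖l‖)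
    ⟨l₁, by
      rw [Multiset.mem_toFinset, Polynomial.mem_roots (Matrix.charpoly_monic _).ne_zero]
      exact R.eig σ hσ ⟨γ, hγ⟩ l₁ hl₁⟩
  rw [Multiset.mem_toFinset, Polynomial.mem_roots (Matrix.charpoly_monic _).ne_zero] at hl
  have hmax' : ∀ l' : ℂ, IsEig (ρ γ) l' → ‖l'‖ ≤ ‖l‖ := by
    intro l' hl'
    refine hmax l' ?_
    rw [Multiset.mem_toFinset, Polynomial.mem_roots (Matrix.charpoly_monic _).ne_zero]
    exact hl'
  have hl1' : 1 < ‖l‖ := lt_of_lt_of_le hl1 (hmax' l₁ (R.eig σ hσ ⟨γ, hγ⟩ l₁ hl₁))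
  obtain ⟨F, hF, hd⟩ := Pool.Agent.Q226.DF.main_rel k n S (R.r ⟨γ, hγ⟩) ‖l‖ hl1'.le
    (fun σ hσ l hl => R.comp' _ σ hσ l hl)
    (fun σ hσ l' hl' => hmax' l' (R.eig σ hσ ⟨γ, hγ⟩ l' hl')) ⟨σ, hσ, l₁, hl₁, hl1⟩
  refine ⟨F, l, hl, hl1', hF, fun E => (hd E).trans (le_of_eq ?_)⟩
  rw [pow_mul]

theorem ball_nhds {G : Type*} [Group G] [TopologicalSpace G] {M : ℕ}
    (ρ : G →* Matrix (Fin M) (Fin M) ℂ) (hρ : Continuous ρ) (B : ℝ) (s n D₀ : ℕ)
    (hB : 1 < B) : Ball B s n D₀ ρ ∈ nhds (1 : G) := by
  have hlog : 0 < Real.log B := Real.log_pos hB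
  have hcost : 0 < cost (n * (s * D₀)) := by unfold cost; positivity
  obtain ⟨C, hC0, hC⟩ : ∃ C : ℝ, 0 < C ∧ ∀ x : ℝ, 0 ≤ x → C * x < 1 →
      2 * (s * n.factorial) * x < Real.log B ∧
        s * n * cost (n * (s * D₀)) * x < 1 := by
    refine ⟨(2 * (s * n.factorial)) / Real.log B +
      s * n * cost (n * (s * D₀)) + 1, by positivity, fun x hx h => ?_⟩
    have h1 : (2 * (s * n.factorial)) / Real.log B * x < 1 := by
      refine lt_of_le_of_lt ?_ h
      refine mul_le_mul_of_nonneg_right ?_ hx
      have : 0 ≤ s * n * cost (n * (s * D₀)) := by positivity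
      linarith
    constructor
    · rw [div_mul_eq_mul_div, div_lt_one hlog] at h1
      exact h1
    · refine lt_of_le_of_lt ?_ h
      refine mul_le_mul_of_nonneg_right ?_ hx
      have : 0 ≤ (2 * (s * n.factorial)) / Real.log B := by positivity
      linarith
  have hε : 0 < 1 / (C + 1) := by positivity
  refine Filter.mem_of_superset (nhd ρ hρ (1 / (C + 1)) hε) fun u hu l hl => ?_
  have h3 := close_eig (ρ u) (1 / (C + 1)) hε hu l hl
  have h4 : ‖l‖ ≤ 1 + 1 / (C + 1) := by
    have h5 : ‖l‖ ≤ ‖l - 1‖ + ‖(1 : ℂ)‖ := by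
      have := norm_add_le (l - 1) 1
      rwa [sub_add_cancel] at this
    rw [norm_one] at h5
    linarith
  by_cases h0 : Real.log ‖l‖ < 0
  · constructor
    · refine lt_of_le_of_lt ?_ hlog
      exact mul_nonpos_of_nonneg_of_nonpos (by positivity) h0.le
    · refine lt_of_le_of_lt ?_ one_pos
      exact mul_nonpos_of_nonneg_of_nonpos (by positivity) h0.le
  · rw [not_lt] at h0
    refine hC _ h0 ?_
    have h6 : Real.log ‖l‖ ≤ 1 / (C + 1) := by
      rcases (norm_nonneg l).eq_or_lt with h7 | h7
      · rw [← h7, Real.log_zero]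
        exact hε.le
      · have := Real.log_le_sub_one_of_pos h7
        linarith
    calc C * Real.log ‖l‖ ≤ C * (1 / (C + 1)) := mul_le_mul_of_nonneg_left h6 hC0.le
      _ < 1 := by rw [mul_one_div, div_lt_one (by positivity)]; linarith

/-- A criterion for large relative discriminants. -/
theorem large_of {F E : Type} [Field F] [NumberField F] [Field E] [NumberField E] (f : E →+* F)
    (n e : ℕ) (B : ℝ) (he : finrank ℚ F = e * finrank ℚ E)
    (h : |(discr E : ℝ)| ^ e * (((n.factorial : ℝ) * e) ^ finrank ℚ F * B ^ e) ≤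
      |(discr F : ℝ)|) : HasLargeRelativeDiscriminant B n F := by
  let g : E →ₐ[ℚ] F := f.toRatAlgHom
  let φ : E ≃ₐ[ℚ] g.fieldRange := AlgEquiv.ofInjectiveField g
  have h5 : finrank ℚ g.fieldRange = finrank ℚ E := φ.toLinearEquiv.finrank_eq.symm
  have h6 : discr g.fieldRange = discr E := (discr_eq_discr_of_algEquiv E φ).symm
  have h7 : finrank g.fieldRange F = e := by
    have h8 := finrank_mul_finrank ℚ g.fieldRange F
    rw [h5, he, mul_comm e] at h8
    exact Nat.eq_of_mul_eq_mul_left finrank_pos h8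
  refine ⟨g.fieldRange, ?_⟩
  rw [h6, h7]
  exact h

/-- The extensions `F` of degree `e` of the number field `E` in `A` which do not have a large
relative discriminant. -/
def Exceptions (A : Type) [Field A] [CharZero A] (E : IntermediateField ℚ A) (n e : ℕ) (B : ℝ) :
    Set (IntermediateField ℚ A) :=
  {F | E ≤ F ∧ finrank ℚ F = e * finrank ℚ E ∧
    ∃ _ : NumberField F, ¬ HasLargeRelativeDiscriminant B n F}

/-- Hermite's theorem for extensions of a fixed degree of a number field. -/
theorem exceptions_finite (A : Type) [Field A] [CharZero A] (E : IntermediateField ℚ A)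
    [FiniteDimensional ℚ E] (n e : ℕ) (B : ℝ) : (Exceptions A E n e B).Finite := by
  classical
  have hE : NumberField E := @NumberField.mk _ _ inferInstance inferInstance
  obtain ⟨N, hN⟩ := exists_nat_ge (|(discr E : ℝ)| ^ e *
    (((n.factorial : ℝ) * e) ^ (e * finrank ℚ E) * B ^ e))
  refine ((NumberField.finite_of_discr_bdd A N).image Subtype.val).subset ?_
  rintro F ⟨hEF, hd, hF, hn⟩
  refine ⟨⟨F, hF.to_finiteDimensional⟩, ?_, rfl⟩
  show |discr F| ≤ N
  by_contra hcon
  rw [not_le] at hcon
  refine hn (large_of (E := E) (IntermediateField.inclusion hEF).toRingHom n e B hd ?_)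
  rw [hd]
  refine hN.trans ?_
  have h9 : ((N : ℤ) : ℝ) < ((|discr F| : ℤ) : ℝ) := by exact_mod_cast hcon
  rw [Int.cast_abs] at h9
  exact_mod_cast h9.le

/-- Let `G` be a topological group and `ρ` a continuous finite dimensional complex representation of
`G` (for instance the complexified adjoint representation of a semisimple Lie group).

(1) Let `Γ` be a torsion-free subgroup of `G` with a realization of size `n` over a number field `k`
with noncompact embeddings `S`. For every `γ ≠ 1` in `Γ`, `ρ γ` has an eigenvalue `l` with `|l| > 1`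
and `k` has a subfield `F` of index at most `|S|` such that
`|disc F| ≤ |disc E| ^ [F : E] (n! [F : E]) ^ [F : ℚ] |l| ^ (2 |S| n! [F : E])` for all the
subfields `E` of `F`.

(2) Let `B > 1`. `Ball B s n D₀ ρ` is an identity neighbourhood, and all its conjugates meet the
groups of `Family B s n D₀ ρ` in the identity only. So the family is uniformly discrete. It contains
`PrimitiveFamily B s n ρ`.

(3) Fields of prime degree larger than `s` have no proper subfields of index at most `s`; no field
has proper subfields of index at most `1`.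

(4) Let `E` be a number field in a field `A`. All but finitely many of the extensions of `E` of
degree `e` in `A` have a large relative discriminant. -/
theorem result {G : Type*} [Group G] [TopologicalSpace G] {M : ℕ}
    (ρ : G →* Matrix (Fin M) (Fin M) ℂ) (hρ : Continuous ρ) :
    (∀ Γ : Subgroup G, TorsionFree Γ → ∀ (k : Type) [Field k] [NumberField k] (n : ℕ)
      (S : Finset (k →+* ℂ)) (_ : Realization ρ Γ k n S), ∀ γ ∈ Γ, γ ≠ 1 →
      ∃ (F : IntermediateField ℚ k) (l : ℂ), IsEig (ρ γ) l ∧ 1 < ‖l‖ ∧ finrank F k ≤ S.card ∧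
        HasSmallDiscriminants (‖l‖ ^ (2 * (S.card * n.factorial))) n F) ∧
    (∀ (s n D₀ : ℕ) (B : ℝ), 1 < B →
      Ball B s n D₀ ρ ∈ nhds (1 : G) ∧
      (∀ Γ ∈ Family B s n D₀ ρ, ∀ g : G, ∀ u ∈ Ball B s n D₀ ρ,
        g * u * g⁻¹ ∈ Γ → g * u * g⁻¹ = 1) ∧
      PrimitiveFamily B s n ρ ⊆ Family B s n D₀ ρ) ∧
    (∀ (s : ℕ) (k : Type) [Field k] [NumberField k],
      (s < finrank ℚ k ∧ (finrank ℚ k).Prime) ∨ s = 1 → NoSubfields s k) ∧
    ∀ (A : Type) [Field A] [CharZero A] (E : IntermediateField ℚ A) [FiniteDimensional ℚ E]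
      (n e : ℕ) (B : ℝ), (Exceptions A E n e B).Finite := by
  refine ⟨fun Γ htf k _ _ n S R γ hγ hne => small ρ htf k n S R γ hγ hne, ?_, ?_,
    fun A _ _ E _ n e B => exceptions_finite A E n e B⟩
  swap
  · rintro s k _ _ (⟨hsk, hp⟩ | rfl) F hF
    swap
    · have h1 : finrank F k = 1 := le_antisymm hF finrank_pos
      rwa [IntermediateField.finrank_eq_one_iff_eq_top] at h1
    have h2 : finrank F k ∣ finrank ℚ k := ⟨finrank ℚ F, by
      rw [mul_comm]; exact (finrank_mul_finrank ℚ F k).symm⟩
    have h1 : finrank F k = 1 := by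
      rcases (Nat.dvd_prime hp).1 h2 with h3 | h3
      · exact h3
      · omega
    rwa [IntermediateField.finrank_eq_one_iff_eq_top] at h1
  intro s n D₀ B hB
  have hB0 : 0 < B := one_pos.trans hB
  refine ⟨ball_nhds ρ hρ B s n D₀ hB, ?_, ?_⟩
  · rintro Γ ⟨htf, k, _, _, S, R, hS, hk⟩ g u hu hΓ
    by_contra hne
    have h2 : (ρ (g * u * g⁻¹)).charpoly = (ρ u).charpoly := by
      rw [map_mul, map_mul]
      have h4 : ρ g⁻¹ * ρ g = 1 := by rw [← map_mul, inv_mul_cancel, map_one]
      rw [Matrix.charpoly_mul_comm, ← mul_assoc, h4, one_mul]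
    have heig : ∀ l : ℂ, IsEig (ρ (g * u * g⁻¹)) l → IsEig (ρ u) l := by
      intro l hl
      rwa [IsEig, h2] at hl
    obtain ⟨F, l, hl, hl1, hF, hd⟩ := small ρ htf k n S R _ hΓ hne
    have hf : (0 : ℝ) < finrank ℚ F := by exact_mod_cast (finrank_pos : 0 < finrank ℚ F)
    rcases hk F (hF.trans hS) with h | h
    · -- bounded degree
      have hunit : IsUnit (R.r ⟨g * u * g⁻¹, hΓ⟩) :=
        (Group.isUnit (⟨g * u * g⁻¹, hΓ⟩ : Γ)).map R.r
      have hnil : ∀ N : ℕ, 0 < N → ¬ IsNilpotent (R.r ⟨g * u * g⁻¹, hΓ⟩ ^ N - 1) := by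
        intro N hN h
        rw [← map_pow] at h
        have h1 := R.unipotent _ h
        exact hne (htf _ hΓ N hN (congrArg Subtype.val h1))
      obtain ⟨σ, hσ, l', hl', hl1', hlow⟩ := Pool.Agent.Q191.MV.gap k ℚ n s 2 1 S
        (R.r ⟨g * u * g⁻¹, hΓ⟩) Pool.Agent.Q226.DF.frob_rat hS hunit
        (fun σ hσ l hl => R.comp' _ σ hσ l hl) hnil
      have h3 := (hu l' (heig l' (R.eig σ hσ ⟨g * u * g⁻¹, hΓ⟩ l' hl'))).2
      have hlog : 0 < Real.log ‖l'‖ := Real.log_pos hl1'
      have hdeg : finrank ℚ k ≤ s * D₀ := by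
        rw [← finrank_mul_finrank ℚ F k, mul_comm]
        exact Nat.mul_le_mul (hF.trans hS) h
      have hcost : Pool.Agent.Q191.MV.loss 2 1 (n * finrank ℚ k) ≤ cost (n * (s * D₀)) := by
        rcases Nat.eq_zero_or_pos n with hn | hn
        · subst hn
          rw [zero_mul, zero_mul]
          unfold Pool.Agent.Q191.MV.loss cost
          norm_num
        · refine (Pool.Agent.Q191.MV.loss_mono 2 1 _ _ one_pos
            (Nat.mul_pos hn finrank_pos) (Nat.mul_le_mul_left _ hdeg)).trans (le_of_eq ?_)
          unfold Pool.Agent.Q191.MV.loss cost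
          norm_num
      rw [finrank_self, Nat.cast_one] at hlow
      have h5 : (s : ℝ) * n * Pool.Agent.Q191.MV.loss 2 1 (n * finrank ℚ k) * Real.log ‖l'‖ ≤
          s * n * cost (n * (s * D₀)) * Real.log ‖l'‖ :=
        mul_le_mul_of_nonneg_right (mul_le_mul_of_nonneg_left hcost (by positivity)) hlog.le
      linarith
    · -- large discriminant
      obtain ⟨E, hE⟩ := h
      have h3 := (hu l (heig l hl)).1
      have hm : 0 < finrank E F := finrank_pos
      have hpos : (0 : ℝ) < |(discr E : ℝ)| ^ finrank E F *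
          ((n.factorial : ℝ) * finrank E F) ^ finrank ℚ F := by
        have h1 : (0 : ℝ) < |(discr E : ℝ)| := abs_pos.2 (by exact_mod_cast discr_ne_zero E)
        have h2 : (0 : ℝ) < n.factorial := by exact_mod_cast n.factorial_pos
        have h3 : (0 : ℝ) < finrank E F := by exact_mod_cast hm
        positivity
      have h4 := hE.trans (hd E)
      rw [← mul_assoc, ← mul_assoc] at h4
      have h5 : B ^ finrank E F ≤ (‖l‖ ^ (2 * (S.card * n.factorial))) ^ finrank E F :=
        le_of_mul_le_mul_left h4 hpos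
      have h6 : B ≤ ‖l‖ ^ (2 * (S.card * n.factorial)) :=
        le_of_pow_le_pow_left₀ hm.ne' (by positivity) h5
      have h7 : ‖l‖ ^ (2 * (S.card * n.factorial)) ≤ ‖l‖ ^ (2 * (s * n.factorial)) :=
        pow_le_pow_right₀ hl1.le (Nat.mul_le_mul_left _ (Nat.mul_le_mul_right _ hS))
      have h9 := Real.log_le_log hB0 (h6.trans h7)
      rw [Real.log_pow] at h9
      push_cast at h9
      linarith
  · rintro Γ ⟨htf, k, _, _, S, R, hS, hns, E, hE⟩
    refine ⟨htf, k, inferInstance, inferInstance, S, R, hS, fun F hF => Or.inr ?_⟩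
    have h1 := hns F hF
    subst h1
    have h4 : finrank ℚ (⊤ : IntermediateField ℚ k) = finrank ℚ k :=
      (IntermediateField.topEquiv (F := ℚ) (E := k)).toLinearEquiv.finrank_eq
    let f : k →ₐ[ℚ] (⊤ : IntermediateField ℚ k) :=
      (IntermediateField.topEquiv (F := ℚ) (E := k)).symm.toAlgHom
    have h5 : finrank ℚ (E.map f) = finrank ℚ E := (E.equivMap f).toLinearEquiv.finrank_eq.symm
    have h6 : discr (E.map f) = discr E := (discr_eq_discr_of_algEquiv E (E.equivMap f)).symm
    have h7 : finrank (E.map f) (⊤ : IntermediateField ℚ k) = finrank E k := by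
      have h8 := finrank_mul_finrank ℚ (E.map f) (⊤ : IntermediateField ℚ k)
      have h9 := finrank_mul_finrank ℚ E k
      rw [h5, h4, ← h9] at h8
      exact Nat.eq_of_mul_eq_mul_left finrank_pos h8
    refine ⟨E.map f, ?_⟩
    rw [h4, h6, h7, discr_eq_discr_of_algEquiv (⊤ : IntermediateField ℚ k)
      IntermediateField.topEquiv]
    exact hE

end Pool.Agent.Results.MP_162bbe_gt.LargeDiscriminants
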