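import Mathlib
import Pool.Agent.Q262.RL.Key5
import Pool.Agent.Y399.MG.H
import Pool.Agent.H225R3.Marg8

/-!
# Margulis' injectivity radius conjecture over extensions of fields with a Frobenius automorphism,
with arbitrary ramification

Fix a prime number `p` and a power `q = p ^ e` of `p`. Let `F` be a number field with an automorphism
`τ` such that `x ^ q ≡ τ x` modulo `P` for all the integers `x` of `F` and all `P` in a set of prime
ideals above `p` whose local degrees have a sum of at least `[F : ℚ] / B`; for instance `τ = 1`, if
this is so for the prime ideals of bounded residue degree. Nothing is assumed on the ramification and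
on the other prime ideals. Let `k` be any extension of `F` with

1. `[k : F] ≤ C [F : ℚ] ^ κ` (in other words, `[F : ℚ] ≥ c [k : ℚ] ^ (1 / (κ + 1))`), or with
2. `log (2 [F : ℚ] D) exp (√(3 log q log D)) ≤ C [F : ℚ]`, `D = n [k : F]`, if the congruences hold
   for all the prime ideals of `F` above `p` and their ramification indices are equal up to a factor
   of at most `B`, for instance if `F` is Galois over `ℚ`.

For fixed `q`, `C`, `κ`, `B`, `s` and `n`, the torsion-free arithmetic groups over all these fields
`k`, of any degree, realized by integral matrices of size `n`, with at most `s` noncompact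
embeddings, form a uniformly discrete family. There is an explicit bound for the eigenvalues which is
linear in the largest ramification index of `F` above `p`.

`Pool.Agent.H225R3.MargDefs` contains the definitions: `Realization ρ Γ k n S` (a homomorphism `r`
from `Γ` to the `n` by `n` matrices over the ring of integers of the number field `k`, bounded under
all embeddings outside `S`, such that for `σ` in `S` the eigenvalues of `σ (r γ)` are eigenvalues of
`ρ γ`, and such that only `1` is mapped to a unipotent matrix) and `UniformlyDiscrete` (there is an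
identity neighbourhood `U` such that `g U g⁻¹` meets every group of the family in the identity only).

Method. Let `N = [F : ℚ]`, `D = [k : F]`, and let `g` be the sum of the residue degrees of the
prime ideals of the given set `T`. The transfer principle of the starting library's result
`MP_162bbe_gt/RamifiedFields` reduces to lower bounds for Mahler measures of integers `β` which
generate, with all their powers, a field `M` such that an extension `L` of `k` has bounded degree over
`k` and over `M`. If `g ≤ c N / log (2 N D)`, then at least `1 / B` of the conjugates of `β` are zeros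
modulo a prime above `p` of an integer polynomial of degree at most `c' [M : ℚ] / log (2 [M : ℚ])`;
for this the embeddings above `T` are counted. A part of the conjugates suffices in the method of the
starting library's `MP_7ab245_nt/HighRamification`. Otherwise the product of the norms of the members
of `T` is at least `p ^ (N / B')` with `B' ≤ log (2 N D) / c + 1`, and the Vandermonde determinants of
`MP_162bbe_gt/FrobeniusSubfields` give a bound `M(β) ≥ exp (√N / C')`, although `B'` is not bounded.
For the second condition similar determinants are used with the exponents `q ^ j p ^ a`, `p ^ a` at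
least the ramification indices; the congruences then hold modulo powers of `p` itself, and the loss is
only linear in the ramification indices.
-/

set_option autoImplicit false

open NumberField Module Pool.Agent.H225R3.Marg

namespace Pool.Agent.Results.MP_162bbe_gt.LargeSubfields

/-- The number field `F` has an automorphism `τ` and a set `T` of prime ideals above `p` with
`x ^ q ≡ τ x` modulo `P` for all the integers `x` of `F` and all `P` in `T`, such that the sum of the
local degrees (products of ramification index and residue degree) of the members of `T` is at least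
`[F : ℚ] / B`. (For `B = 1` this means that all the prime ideals above `p` are in `T`.) -/
def HasFrobenius (p q B : ℕ) (F : Type) [Field F] [NumberField F] : Prop :=
  ∃ (τ : F ≃+* F) (T : Finset (Ideal (𝓞 F))),
    (∀ P ∈ T, P ∈ (Ideal.span {(p : ℤ)}).primesOver (𝓞 F) ∧
      ∀ x : 𝓞 F, x ^ q - RingOfIntegers.mapRingHom (τ : F →+* F) x ∈ P) ∧
    finrank ℚ F ≤ B * ∑ P ∈ T, P.ramificationIdx ℤ * P.inertiaDeg ℤ

/-- All the ramification indices of `F` above `p` are at most `E`. -/
def RamificationAtMost (p E : ℕ) (F : Type) [Field F] [NumberField F] : Prop :=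
  ∀ P ∈ (Ideal.span {(p : ℤ)}).primesOver (𝓞 F), P.ramificationIdx ℤ ≤ E

/-- The ramification indices of `F` above `p` are equal up to a factor of at most `B`. -/
def ComparableRamification (p B : ℕ) (F : Type) [Field F] [NumberField F] : Prop :=
  ∀ P ∈ (Ideal.span {(p : ℤ)}).primesOver (𝓞 F), ∀ Q ∈ (Ideal.span {(p : ℤ)}).primesOver (𝓞 F),
    P.ramificationIdx ℤ ≤ B * Q.ramificationIdx ℤ

/-- The condition on an extension of relative degree `d` of `F`, for matrices of size `n`. -/
def IsLarge (p e B C κ n : ℕ) (F : Type) [Field F] [NumberField F] (d : ℕ) : Prop :=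
  (HasFrobenius p (p ^ e) B F ∧ d ≤ C * finrank ℚ F ^ κ) ∨
  (HasFrobenius p (p ^ e) 1 F ∧ ComparableRamification p B F ∧
    Real.log (2 * (finrank ℚ F * (n * d : ℕ))) *
      Real.exp (√(3 * (e * Real.log p) * Real.log (n * d : ℕ))) ≤ C * finrank ℚ F)

/-- There is no element of finite order other than the identity. -/
def TorsionFree {G : Type*} [Group G] (Γ : Subgroup G) : Prop :=
  ∀ γ ∈ Γ, ∀ N : ℕ, 0 < N → γ ^ N = 1 → γ = 1

/-- The torsion-free subgroups `Γ` of `G` which have a realization by matrices of size `n`, with at
most `s` noncompact embeddings, over a number field `k` that is an extension of a number field `F`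
with `IsLarge p e B C κ n F [k : F]`. -/
def Family (p e B C κ s n : ℕ) {G : Type*} [Group G] {M : ℕ} (ρ : G →* Matrix (Fin M) (Fin M) ℂ) :
    Set (Subgroup G) :=
  {Γ | TorsionFree Γ ∧
    ∃ (k : Type) (_ : Field k) (_ : NumberField k) (S : Finset (k →+* ℂ))
      (_ : Realization ρ Γ k n S) (F : Type) (_ : Field F) (_ : NumberField F) (_ : Algebra F k),
      S.card ≤ s ∧ IsLarge p e B C κ n F (finrank F k)}

/-- `10 p ^ (2 e + 1) E exp (√(3 e log p log D)) / log p` -/
noncomputable def cost (p e E D : ℕ) : ℝ :=
  10 * (p : ℝ) ^ (2 * e + 1) * E * Real.exp (√(3 * (e * Real.log p) * Real.log D)) / Real.log p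

/-- **Margulis' conjecture over fields with a large subfield that has a Frobenius automorphism.**

1. For every prime number `p`, all `e > 0`, `B`, `C`, `κ`, `s` and `n`, and every continuous finite
   dimensional complex representation `ρ` of a topological group `G`, the family
   `Family p e B C κ s n ρ` is uniformly discrete.
2. Let `Γ` be a torsion-free group with a realization of size `n`, with at most `s` noncompact
   embeddings, over an extension `k` of a number field `F` with `HasFrobenius p (p ^ e) 1 F` whose
   ramification indices above `p` are at most `E`. Then every `γ ≠ 1` in `Γ` has an eigenvalue `z`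
   under one of the noncompact embeddings, which is also an eigenvalue of `ρ γ`, with `|z| > 1` and
   `[F : ℚ] ≤ s n cost(p, e, E, n [k : F]) log |z|`.
3. If there is a set of prime ideals of `F` above `p`, of residue degrees at most `f`, whose local
   degrees have a sum of at least `[F : ℚ] / B`, then `HasFrobenius p (p ^ f !) B F`.
4. If `F` is Galois over `ℚ`, then `ComparableRamification p 1 F`. -/
theorem result :
    (∀ (G : Type*) [Group G] [TopologicalSpace G] (M : ℕ) (ρ : G →* Matrix (Fin M) (Fin M) ℂ),
      Continuous ρ → ∀ (p e : ℕ), p.Prime → 0 < e → ∀ B C κ s n : ℕ,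
      UniformlyDiscrete (Family p e B C κ s n ρ)) ∧
    (∀ (G : Type*) [Group G] (M : ℕ) (ρ : G →* Matrix (Fin M) (Fin M) ℂ) (Γ : Subgroup G)
      (k : Type) [Field k] [NumberField k] (n s : ℕ) (S : Finset (k →+* ℂ))
      (R : Realization ρ Γ k n S) (F : Type) [Field F] [NumberField F] [Algebra F k] (p e E : ℕ),
      p.Prime → 0 < e → TorsionFree Γ → S.card ≤ s → HasFrobenius p (p ^ e) 1 F →
      RamificationAtMost p E F → ∀ γ : Γ, γ ≠ 1 → ∃ σ ∈ S, ∃ z : ℂ,
        IsEig (conjMat σ (R.r γ)) z ∧ IsEig (ρ γ) z ∧ 1 < ‖z‖ ∧
        (finrank ℚ F : ℝ) ≤ s * n * cost p e E (n * finrank F k) * Real.log ‖z‖) ∧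
    (∀ (F : Type) [Field F] [NumberField F] (p f B : ℕ), p.Prime → ∀ T : Finset (Ideal (𝓞 F)),
      (∀ P ∈ T, P ∈ (Ideal.span {(p : ℤ)}).primesOver (𝓞 F) ∧ P.inertiaDeg ℤ ≤ f) →
      finrank ℚ F ≤ B * ∑ P ∈ T, P.ramificationIdx ℤ * P.inertiaDeg ℤ →
      HasFrobenius p (p ^ f.factorial) B F) ∧
    (∀ (F : Type) [Field F] [NumberField F] (p : ℕ), p.Prime → IsGalois ℚ F →
      ComparableRamification p 1 F) := by
  refine ⟨?_, ?_, ?_, ?_⟩
  · intro G _ _ M ρ hρ p e hp he B C κ s n
    obtain ⟨μ1, hμ1, hkey1⟩ := Pool.Agent.Q262.RL.key4 hp he B κ (s * n) (n * C)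
    obtain ⟨μ2, hμ2, hkey2⟩ := Pool.Agent.Q262.RL.key2 hp he B (s * n) (C : ℝ)
    obtain ⟨ε, hε, hεμ⟩ := Pool.Agent.Y399.MG.exists_eps (s * n) (min μ1 μ2) (lt_min hμ1 hμ2)
    refine ⟨_, nhd ρ hρ ε hε, ?_⟩
    rintro Γ ⟨htf, k, _, _, S, R, F, _, _, _, hs, hF⟩ g v hv hΓ
    refine final_step' R htf ε hε g v hv hΓ fun hnil => ?_
    have hunit : IsUnit (R.r ⟨g * v * g⁻¹, hΓ⟩) :=
      (Group.isUnit (⟨g * v * g⁻¹, hΓ⟩ : Γ)).map R.r
    obtain ⟨σ, hσ, l, hl, hl1, hlow⟩ := Pool.Agent.Y399.MG.gap_transfer k n s S
      (R.r ⟨g * v * g⁻¹, hΓ⟩) hs (min μ1 μ2) (fun L _ _ _ K β h1 h2 h3 h4 h5 => by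
        letI : Algebra F L := ((algebraMap k L).comp (algebraMap F k)).toAlgebra
        haveI : IsScalarTower F k L := IsScalarTower.of_algebraMap_eq fun _ => rfl
        have hFL : finrank F L ≤ n * finrank F k := by
          rw [← finrank_mul_finrank F k L, mul_comm]
          exact Nat.mul_le_mul_right _ h1
        rcases hF with ⟨hF1, hF2⟩ | ⟨hF1, hF2, hF3⟩
        · refine (min_le_left _ _).trans (hkey1 F L K β hF1 (hFL.trans ?_) h2 h3 h4
            fun i => h5 _ (pow_pos hp.pos i))
          rw [mul_assoc]
          exact Nat.mul_le_mul_left _ hF2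
        · exact (min_le_right _ _).trans (hkey2 F L K β (n * finrank F k)
            (Pool.Agent.Q262.RL.all_of_mass hp hF1) hF2 hFL hF3 h2 h3 h4
            fun i => h5 _ (pow_pos hp.pos i)))
      hunit (fun σ hσ l hl => R.comp' _ σ hσ l hl) hnil
    exact ⟨σ, hσ, l, hl, hεμ l hlow hl1⟩
  · intro G _ M ρ Γ k _ _ n s S R F _ _ _ p e E hp he htf hs hF hE γ hγ
    have hnil : ∀ N : ℕ, 0 < N → ¬ IsNilpotent (R.r γ ^ N - 1) := by
      intro N hN h0
      rw [← map_pow] at h0
      have h1 := R.unipotent _ h0
      have h2 : (γ : G) ^ N = 1 := congrArg Subtype.val h1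
      exact hγ (Subtype.ext (htf _ γ.2 N hN h2))
    obtain ⟨σ, hσ, l, hl, hl1, hlow⟩ := Pool.Agent.Q262.RL.ram_gap k F n s hp he S (R.r γ)
      (Pool.Agent.Q262.RL.all_of_mass hp hF) hE hs ((Group.isUnit γ).map R.r)
      (fun σ hσ l hl => R.comp' _ σ hσ l hl) hnil
    have hl' : IsEig (conjMat σ (R.r γ)) l := hl
    exact ⟨σ, hσ, l, hl', R.eig σ hσ γ l hl', hl1, hlow⟩
  · intro F _ _ p f B hp T hT hN
    exact Pool.Agent.Q262.RL.mass_of_res hp T hT hN
  · intro F _ _ p hp hG P hP Q hQ
    have := hP.1
    have := hP.2
    have := hQ.1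
    have := hQ.2
    rw [one_mul]
    exact (Ideal.ramificationIdx_eq_of_isGaloisGroup (Ideal.span {(p : ℤ)}) P Q Gal(F/ℚ)).le

end Pool.Agent.Results.MP_162bbe_gt.LargeSubfields
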