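import Mathlib
import Pool.Agent.Q262.FR.Marg
import Pool.Agent.Q262.FR.Lor

/-!
# Margulis' injectivity radius conjecture near rational planes

Let `k` be a totally real field of any degree `d`, with a distinguished real embedding, and let `f` be
a quadratic form over its ring of integers `O` of signature `(p, q)` under this embedding and positive
definite under the others.  The group `Γ = SO(f, O)` is a lattice in `G = SO(p, q)`, uniform if `k` is
not `ℚ`, and preserves the trace form of `f` on `O ^ (p + q)`, an integral quadratic form of rank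
`d (p + q)` with exactly `q` negative squares.  The theorem gives a lower bound for the local
injectivity radius of `Γ \ G / K` at the points `x` which are near a negative `q`-plane `V` spanned by
vectors of the lattice `O ^ (p + q)` whose Gram matrix for the trace form has a bounded determinant;
the bound does not depend on the field, its degree, or the form.  Nearness is expressed by the
displacements: the elements of `Γ` that move `x` by a small amount move `V` by a bounded amount.

The formulation is general: `G` is any topological group with a continuous representation `ρ`, `Γ` is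
a torsion-free subgroup acting by isometries on an integral lattice, of any rank, with `q` negative
squares, such that the large eigenvalues come from `ρ` and only `1` acts as a unipotent matrix.

Method: by `Pool.Agent.Results.MP_dc0c68_nt.IndefiniteLattices` an isometry of the lattice which moves
`V` by a bounded amount has a characteristic polynomial of Mahler measure `1` or at least `μ > 1`.
-/

set_option autoImplicit false

namespace Pool.Agent.Results.MP_162bbe_gt.NearRationalPlanes

open Polynomial Topology

noncomputable section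

/-- The symmetric bilinear form with the integral Gram matrix `F`. -/
def form {n : ℕ} (F : Matrix (Fin n) (Fin n) ℤ) (x y : Fin n → ℝ) : ℝ :=
  ∑ i, ∑ j, (F i j : ℝ) * x i * y j

/-- The linear combination of the lattice vectors `v k` with the real coefficients `c k`. -/
def comb {n q : ℕ} (v : Fin q → Fin n → ℤ) (c : Fin q → ℝ) : Fin n → ℝ :=
  fun i => ∑ k, c k * (v k i : ℝ)

/-- The image of the real vector `x` under the integer matrix `A`. -/
def image {n : ℕ} (A : Matrix (Fin n) (Fin n) ℤ) (x : Fin n → ℝ) : Fin n → ℝ :=
  fun i => ∑ j, (A i j : ℝ) * x j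

/-- The Gram matrix of the lattice vectors `v k`. -/
def gram {n q : ℕ} (F : Matrix (Fin n) (Fin n) ℤ) (v : Fin q → Fin n → ℤ) :
    Matrix (Fin q) (Fin q) ℤ :=
  Matrix.of fun i j => ∑ a, ∑ b, F a b * v i a * v j b

/-- The form is symmetric, negative definite on the span of the lattice vectors `v k` (which are
linearly independent) and positive definite on its orthogonal complement. In particular it is
nondegenerate with exactly `q` negative squares. -/
structure IsNegativeBasis {n q : ℕ} (F : Matrix (Fin n) (Fin n) ℤ) (v : Fin q → Fin n → ℤ) :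
    Prop where
  symmetric : F.transpose = F
  negative : ∀ c : Fin q → ℝ, c ≠ 0 → form F (comb v c) (comb v c) < 0
  positive : ∀ x : Fin n → ℝ, x ≠ 0 → (∀ c, form F (comb v c) x = 0) → 0 < form F x x

/-- The matrix `A` moves the span of the `v k` by a bounded amount. -/
def HasDisplacement (c : ℝ) {n q : ℕ} (F A : Matrix (Fin n) (Fin n) ℤ) (v : Fin q → Fin n → ℤ) :
    Prop :=
  ∀ s t : Fin q → ℝ, form F (comb v s) (image A (comb v t)) ^ 2 ≤
    c * (form F (comb v s) (comb v s) * form F (comb v t) (comb v t))

/-- An action of the subgroup `Γ` of `G` by isometries on an integral lattice, of any rank `n`, with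
`q` negative squares, together with lattice vectors `v k` which span a negative definite subspace of
dimension `q` and covolume at most `√Δ`. The eigenvalues of `r γ` outside the unit circle are
eigenvalues of `ρ γ`, with at least the same multiplicity, and only `1` acts as a unipotent matrix. -/
structure LatticeAction {G : Type*} [Group G] {M : ℕ} (ρ : G →* Matrix (Fin M) (Fin M) ℂ)
    (Γ : Subgroup G) (q : ℕ) (Δ : ℝ) where
  n : ℕ
  F : Matrix (Fin n) (Fin n) ℤ
  v : Fin q → Fin n → ℤ
  r : Γ →* Matrix (Fin n) (Fin n) ℤ
  basis : IsNegativeBasis F v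
  covolume : |((gram F v).det : ℝ)| ≤ Δ
  isometry : ∀ γ : Γ, (r γ).transpose * F * r γ = F
  eig : ∀ (γ : Γ) (z : ℂ), 1 < ‖z‖ →
    ((r γ).charpoly.map (Int.castRingHom ℂ)).rootMultiplicity z ≤
      (ρ γ).charpoly.rootMultiplicity z
  unipotent : ∀ γ : Γ, IsNilpotent (r γ - 1) → γ = 1

/-- The point `g K` of the symmetric space is near the rational plane: the elements `γ` of `Γ` in
`g W g⁻¹` (which move the point `g K` by a small amount) move the plane by a bounded amount. -/
def IsNear (c : ℝ) {G : Type*} [Group G] {M : ℕ} {ρ : G →* Matrix (Fin M) (Fin M) ℂ}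
    {Γ : Subgroup G} {q : ℕ} {Δ : ℝ} (R : LatticeAction ρ Γ q Δ) (W : Set G) (g : G) : Prop :=
  ∀ γ : Γ, g⁻¹ * γ * g ∈ W → HasDisplacement c R.F (R.r γ) R.v

/-- Let `G` be a topological group with a continuous representation `ρ`, let `q`, `Δ`, `c` and a
neighbourhood `W` of `1` be given. There is a neighbourhood `U` of `1` such that `g U g⁻¹` meets `Γ`
in `1` only, for all torsion-free subgroups `Γ` of `G` with an action on an integral lattice with `q`
negative squares, and for all `g` near the given rational plane. -/
theorem result {G : Type*} [Group G] [TopologicalSpace G] {M : ℕ}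
    (ρ : G →* Matrix (Fin M) (Fin M) ℂ) (hρ : Continuous ρ) (q : ℕ) (Δ c : ℝ) (W : Set G)
    (hW : W ∈ 𝓝 (1 : G)) : ∃ U ∈ 𝓝 (1 : G), ∀ Γ : Subgroup G,
      (∀ γ ∈ Γ, ∀ N : ℕ, 0 < N → γ ^ N = 1 → γ = 1) →
      ∀ (R : LatticeAction ρ Γ q Δ) (g : G), IsNear c R W g →
        ∀ u ∈ U, g * u * g⁻¹ ∈ Γ → g * u * g⁻¹ = 1 := by
  obtain ⟨ε, hε, h⟩ := Q262.FR.near_gap q c Δ M
  refine ⟨_, Filter.inter_mem hW (Pool.Agent.H225R3.Marg.nhd ρ hρ ε hε), ?_⟩
  rintro Γ htf R g hg u ⟨hu1, hu2⟩ hΓ
  set γ : Γ := ⟨g * u * g⁻¹, hΓ⟩ with hγ
  have hd : HasDisplacement c R.F (R.r γ) R.v := by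
    refine hg γ ?_
    have h1 : g⁻¹ * (γ : G) * g = u := by
      rw [hγ]
      group
    rw [h1]
    exact hu1
  have hunit : IsUnit (R.r γ) := (Group.isUnit γ).map R.r
  have hchar : (ρ γ).charpoly = (ρ u).charpoly := by
    rw [hγ]
    simp only
    rw [map_mul, map_mul]
    have h4 : ρ g⁻¹ * ρ g = 1 := by rw [← map_mul, inv_mul_cancel, map_one]
    rw [Matrix.charpoly_mul_comm, ← mul_assoc, h4, one_mul]
  obtain ⟨N, hN, hnil⟩ := h R.n R.F (R.r γ) R.v (ρ u) R.basis.symmetric R.basis.negative
    R.basis.positive (fun x => (Q262.FR.bil_img R.F (R.r γ) (R.isometry γ) x x).le) R.covolume hd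
    (fun z hz => by
      rw [← hchar]
      exact R.eig γ z hz) hu2 hunit
  rw [← map_pow] at hnil
  have h2 : (g * u * g⁻¹) ^ N = 1 := congrArg Subtype.val (R.unipotent _ hnil)
  exact htf _ hΓ N hN h2

end

end Pool.Agent.Results.MP_162bbe_gt.NearRationalPlanes
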